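import Pool.Agent.Y481.DR.Defs

/-!
# Jobs EXD and SCL of project DR: the exact formula for the ring of trees, multilinearity
-/

set_option autoImplicit false

namespace Pool.Agent.Y407.DR

open Finset Filter Topology Metric
open Pool.Agent.W711.HT hiding XX
open Pool.Agent.Y472
open Pool.Agent.Y481 (itI cw)
open Pool.Agent.TH563.UV (Tb op XX PB AB)
open Pool.Agent.Y481.DR
open scoped Real

/-! ### Assembly of the exact formula -/

theorem prod_nel (x : ℝ) (C : Tb → ℂ) : ∀ ts : List (Tb × Tb),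
    (∀ p ∈ ts, ‖C p.1‖ = x ^ p.1.ne ∧ ‖C p.2‖ = x ^ p.2.ne) →
    (ts.map fun p => ‖C p.1‖ * ‖C p.2‖).prod = x ^ nel ts
  | [], _ => by simp [nel]
  | p :: ts, h => by
    have ih := prod_nel x C ts fun q hq => h q (List.mem_cons_of_mem _ hq)
    obtain ⟨h1, h2⟩ := h p List.mem_cons_self
    have h3 : nel (p :: ts) = p.1.ne + p.2.ne + nel ts := by
      simp [nel]
    rw [List.map_cons, List.prod_cons, ih, h1, h2, h3, pow_add, pow_add]

theorem t_exd : S_EXD := by
  intro hT hE hP hJ N ts m hN hts hno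
  have hch : ∀ t : Tb, ∃ (P : Polynomial ℂ) (C : ℂ), t.bl = false →
      ‖C‖ = ((N : ℝ) ^ 2 / (2 * π)) ^ t.ne ∧
      mx N (Polynomial.aeval (cas (vN N) (-1)) P) = op N (vN N) t ∧
      GDP N P (fun i j => C * cV N (tv t) i j) := by
    intro t
    by_cases h : t.bl = false
    · obtain ⟨P, C, h'⟩ := hP t N hN h
      exact ⟨P, C, fun _ => h'⟩
    · exact ⟨0, 0, fun h' => absurd h' h⟩
  choose P C hPC using hch
  let d : Tb × Tb → PV × PV := fun p => ((P p.1, tv p.1, C p.1), (P p.2, tv p.2, C p.2))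
  have h1 := hE hT N (ts.map d) m hN (by simpa using hts) (by
    intro x hx
    obtain ⟨p, hp, rfl⟩ := List.mem_map.1 hx
    exact ⟨(hPC p.1 (hno p hp).1).2.2, (hPC p.2 (hno p hp).2).2.2⟩)
  have h2 : JD ts m N (vN N) = JP N (vN N) (-1) m ((ts.map d).map fun d => (d.1.1, d.2.1)) := by
    apply hJ N ts _ m hN
    rw [List.map_map, List.forall₂_map_right_iff, List.forall₂_same]
    intro p hp
    exact ⟨(hPC p.1 (hno p hp).1).2.1.symm, (hPC p.2 (hno p hp).2).2.1.symm⟩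
  rw [h2, h1]
  have h3 : ((ts.map d).map fun d => ‖d.1.2.2‖ * ‖d.2.2.2‖).prod =
      ((N : ℝ) ^ 2 / (2 * π)) ^ nel ts := by
    rw [List.map_map]
    exact prod_nel _ C ts fun p hp => ⟨(hPC p.1 (hno p hp).1).1, (hPC p.2 (hno p hp).2).1⟩
  have h4 : (ts.map d).map (fun d => (d.1.2.1, d.2.2.1)) = tvl ts := by
    rw [List.map_map]
    rfl
  rw [h3, h4]

/-! ### Multilinearity -/

theorem upp_mul (h : ℝ) (c : ℂ) (f : ℂ → ℂ) : upp h (fun ψ => c * f ψ) = c * upp h f := by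
  simp only [upp, intervalIntegral.integral_const_mul]
  ring

/-- The function of a vertex is multiplied by a number. -/
def s1 (V : Vx) (c : ℕ → ℂ) : Vx := (V.1, fun N ψ => V.2 N ψ * c N)

theorem cV_s1 (N : ℕ) (V : Vx) (c : ℕ → ℂ) (i j : ℕ) :
    cV N (s1 V c) i j = c N * cV N V i j := by
  unfold cV s1
  have h1 : (fun ψ => Ea V.1 N ψ * (V.2 N ψ * c N) * Rp N (N - 1 - j) ψ * Rp N i ψ * kr N ψ) =
      fun ψ => c N * (Ea V.1 N ψ * V.2 N ψ * Rp N (N - 1 - j) ψ * Rp N i ψ * kr N ψ) := by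
    funext ψ
    ring
  simp only [h1]
  rw [upp_mul]
  ring

theorem MAV_s1 (N : ℕ) (V : Vx) (c : ℕ → ℂ) : MAV N (s1 V c) = c N • MAV N V := by
  ext i j
  rw [Matrix.smul_apply]
  unfold MAV
  split_ifs
  · rw [cV_s1, smul_eq_mul]
  · rw [smul_zero]

theorem MBV_s1 (N : ℕ) (χ : ℂ) (V : Vx) (c : ℕ → ℂ) :
    MBV N χ (s1 V c) = c N • MBV N χ V := by
  ext i j
  rw [Matrix.smul_apply]
  unfold MBV
  split_ifs
  · rw [cV_s1, smul_eq_mul]
    ring
  · rw [smul_zero]

theorem prod_scl {N : ℕ} (f : Vx × Vx → Matrix (Fin N) (Fin N) ℂ)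
    (hf : ∀ (p : Vx × Vx) (c : (ℕ → ℂ) × (ℕ → ℂ)),
      f (s1 p.1 c.1, s1 p.2 c.2) = (c.1 N * c.2 N) • f p) :
    ∀ (ls : List (Vx × Vx)) (e : List ((ℕ → ℂ) × (ℕ → ℂ))), ls.length = e.length →
      ((scl ls e).map f).prod = (e.map fun c => c.1 N * c.2 N).prod • (ls.map f).prod
  | [], [], _ => by simp [scl]
  | [], _ :: _, h => by simp at h
  | _ :: _, [], h => by simp at h
  | p :: ls, c :: e, h => by
    have ih := prod_scl f hf ls e (by simpa using h)
    have h1 : (scl (p :: ls) (c :: e)).map f = f (s1 p.1 c.1, s1 p.2 c.2) :: (scl ls e).map f :=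
      rfl
    rw [h1, List.prod_cons, ih, hf, List.map_cons, List.map_cons, List.prod_cons, List.prod_cons,
      smul_mul_smul_comm]

theorem TV_scl (N : ℕ) (ls : List (Vx × Vx)) (e : List ((ℕ → ℂ) × (ℕ → ℂ)))
    (h : ls.length = e.length) (χ : ℂ) :
    TV N (scl ls e) χ = (e.map fun c => c.1 N * c.2 N).prod * TV N ls χ := by
  unfold TV
  rw [prod_scl (fun p => MAV N p.1 * MBV N χ p.2) ?_ ls e h, Matrix.trace_smul, smul_eq_mul]
  intro p c
  simp only [MAV_s1, MBV_s1, smul_mul_smul_comm]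

theorem ThV_scl (N : ℕ) (ls : List (Vx × Vx)) (e : List ((ℕ → ℂ) × (ℕ → ℂ)))
    (h : ls.length = e.length) (p : ℕ) :
    ThV N (scl ls e) p = (e.map fun c => c.1 N * c.2 N).prod * ThV N ls p := by
  unfold ThV
  rw [prod_scl (fun q => MAV N q.1 * pH N p * MBV N (2 * π * p / N) q.2 * pH N p) ?_ ls e h,
    Matrix.mul_smul, Matrix.trace_smul, smul_eq_mul]
  intro q c
  simp only [MAV_s1, MBV_s1, Matrix.smul_mul, Matrix.mul_smul, smul_smul]
  rw [mul_comm]

theorem t_scl : S_SCL := by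
  intro N ls e m _ hl
  unfold ES
  have h1 : ∀ p : ℕ, deriv (fun χ => wE N m χ * TV N (scl ls e) χ) (2 * π * p / N) =
      (e.map fun c => c.1 N * c.2 N).prod *
        deriv (fun χ => wE N m χ * TV N ls χ) (2 * π * p / N) := by
    intro p
    have h2 : (fun χ => wE N m χ * TV N (scl ls e) χ) =
        fun χ => (e.map fun c => c.1 N * c.2 N).prod * (wE N m χ * TV N ls χ) := by
      funext χ
      rw [TV_scl N ls e hl]
      ring
    rw [h2, deriv_const_mul_field]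
  simp only [h1, ThV_scl N ls e hl]
  rw [mul_sub, ← Finset.mul_sum]
  congr 1
  rw [Finset.mul_sum, Finset.mul_sum, Finset.mul_sum]
  refine Finset.sum_congr rfl fun p _ => ?_
  ring

end Pool.Agent.Y407.DR
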